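import Pool.Agent.helper63.NU.Stub.A1
import Pool.Agent.helper63.NU.Stub.A2
import Pool.Agent.helper63.NU.Stub.B4
import Pool.Agent.helper63.NU.Stub.H1

set_option autoImplicit false
set_option linter.all false

/-! The Laplacian of a Kähler–Einstein manifold in the charts. -/

open MeasureTheory Filter Topology Set
open scoped ContDiff Manifold Matrix ENNReal ComplexOrder

noncomputable section

namespace Pool.Agent.helper63.NU

namespace KE

variable {n : ℕ} {M : Type*} [TopologicalSpace M] [ChartedSpace (E n) M]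
  [IsManifold 𝓘(ℂ, E n) ω M] {φ : Fam n M ℝ}

theorem contDiffOn_det {U : Set (E n)} (hU : IsOpen U) {ψ : E n → ℝ} (hψ : ContDiffOn ℝ ∞ ψ U) :
    ContDiffOn ℝ ∞ (fun z => (lev ψ z).det) U := by
  have h1 : (fun z => (lev ψ z).det) = fun z => ∑ σ : Equiv.Perm (Fin n),
      ((Equiv.Perm.sign σ : ℤ) : ℂ) * ∏ i, lev ψ z (σ i) i := by
    funext z; rw [Matrix.det_apply']
  rw [h1]
  refine ContDiffOn.sum fun σ _ => contDiffOn_const.mul ?_
  exact contDiffOn_prod fun i _ => contDiffOn_lev hU hψ (σ i) i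

/-- `det ∂∂̄φ e^φ = c` in every chart -/
theorem det_eq (hφ : IsPos 1 φ) {c : ℝ} (hdl : ∀ x, dl φ x = c) {e : Ch n M}
    (he : e ∈ atlas (E n) M) {y : E n} (hy : y ∈ e.target) :
    (lev (φ e) y).det * (Real.exp (φ e y) : ℂ) = (c : ℂ) := by
  have h1 := dl_eq hφ he (e.map_target hy)
  rw [e.right_inv hy, hdl] at h1
  have h2 := (hφ.pos e he y hy).det_pos
  have h3 : (lev (φ e) y).det = (((lev (φ e) y).det.re : ℝ) : ℂ) := by
    apply Complex.ext
    · simp
    · rw [Complex.ofReal_im]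
      exact ((Complex.lt_def.1 h2).2).symm
  rw [h3, ← Complex.ofReal_mul, ← h1]

theorem c_ne (hφ : IsPos 1 φ) {c : ℝ} (hdl : ∀ x, dl φ x = c) {e : Ch n M}
    (he : e ∈ atlas (E n) M) {y : E n} (hy : y ∈ e.target) : (c : ℂ) ≠ 0 := by
  rw [← det_eq hφ hdl he hy]
  refine mul_ne_zero (hφ.pos e he y hy).det_pos.ne' ?_
  exact_mod_cast (Real.exp_pos _).ne'

theorem exp_neg_eq (hφ : IsPos 1 φ) {c : ℝ} (hdl : ∀ x, dl φ x = c) {e : Ch n M}
    (he : e ∈ atlas (E n) M) {y : E n} (hy : y ∈ e.target) :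
    (Real.exp (-φ e y) : ℂ) = (c : ℂ)⁻¹ * (lev (φ e) y).det := by
  have h1 := det_eq hφ hdl he hy
  have h2 := c_ne hφ hdl he hy
  have h3 : (Real.exp (φ e y) : ℂ) * (Real.exp (-φ e y) : ℂ) = 1 := by
    rw [← Complex.ofReal_mul, ← Real.exp_add, add_neg_cancel, Real.exp_zero, Complex.ofReal_one]
  rw [eq_inv_mul_iff_mul_eq₀ h2, ← h1, mul_assoc, h3, mul_one]

/-- `∂̄^*∂̄ f = - ∑_{jk} Θ⁻¹_{kj} ∂_j ∂̄_k f` -/
theorem bx_eq (hφ : IsPos 1 φ) {c : ℝ} (hdl : ∀ x, dl φ x = c) {e : Ch n M}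
    (he : e ∈ atlas (E n) M) {f : E n → ℂ} (hf : ContDiffOn ℝ ∞ f e.target) {y : E n}
    (hy : y ∈ e.target) :
    bx (φ e) f y = -∑ j, ∑ k, (lev (φ e) y)⁻¹ k j * dz j (db k f) y := by
  have hUy : e.target ∈ 𝓝 y := e.open_target.mem_nhds hy
  set A : Fin n → Fin n → E n → ℂ := fun k j z => (lev (φ e) z).det * (lev (φ e) z)⁻¹ k j with hAdef
  have hR := fun a b => contDiffOn_lev_inv e.open_target (hφ.smooth e he) (hφ.pos e he) a b
  have hdet := contDiffOn_det e.open_target (hφ.smooth e he)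
  have hA : ∀ k j, ContDiffOn ℝ ∞ (A k j) e.target := fun k j => hdet.mul (hR k j)
  have hAd : ∀ k j, DifferentiableAt ℝ (A k j) y := fun k j =>
    ((hA k j).contDiffAt hUy).differentiableAt (by simp)
  have hfd : ∀ k, DifferentiableAt ℝ (db k f) y := fun k =>
    ((contDiffOn_db e.open_target hf k).contDiffAt hUy).differentiableAt (by simp)
  have h1 : ∀ j, dz j (fun z => (Real.exp (-φ e z) : ℂ) * rs (lev (φ e) z) (dbv f z) j) y =
      (c : ℂ)⁻¹ * ∑ k, (dz j (A k j) y * db k f y + A k j y * dz j (db k f) y) := by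
    intro j
    have h2 : (fun z => (Real.exp (-φ e z) : ℂ) * rs (lev (φ e) z) (dbv f z) j) =ᶠ[𝓝 y]
        fun z => (c : ℂ)⁻¹ * ∑ k, A k j z * db k f z := by
      filter_upwards [hUy] with z hz
      rw [exp_neg_eq hφ hdl he hz, mul_assoc]
      congr 1
      unfold rs dbv
      rw [Finset.mul_sum]
      refine Finset.sum_congr rfl fun k _ => ?_
      rw [hAdef]
      ring
    rw [dz_congr h2, dz_const_mul]
    congr 1
    rw [dz_sum (f := fun k z => A k j z * db k f z) Finset.univ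
      fun k _ => (hAd k j).mul (hfd k)]
    exact Finset.sum_congr rfl fun k _ => dz_mul (hAd k j) (hfd k) j
  unfold bx
  rw [Finset.sum_congr rfl fun j _ => h1 j, ← Finset.mul_sum]
  have h3 : ∑ j, ∑ k, (dz j (A k j) y * db k f y + A k j y * dz j (db k f) y) =
      (lev (φ e) y).det * ∑ j, ∑ k, (lev (φ e) y)⁻¹ k j * dz j (db k f) y := by
    have h4 : ∑ j, ∑ k, dz j (A k j) y * db k f y = 0 := by
      rw [Finset.sum_comm]
      refine Finset.sum_eq_zero fun k _ => ?_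
      rw [← Finset.sum_mul, show (∑ j, dz j (A k j) y) = 0 from
        cof_div e.open_target (hφ.smooth e he) (hφ.pos e he) hy k, zero_mul]
    simp only [Finset.sum_add_distrib]
    rw [h4, zero_add, Finset.mul_sum]
    refine Finset.sum_congr rfl fun j _ => ?_
    rw [Finset.mul_sum]
    refine Finset.sum_congr rfl fun k _ => ?_
    rw [hAdef]
    ring
  rw [h3]
  have h5 := det_eq hφ hdl he hy
  have h6 := c_ne hφ hdl he hy
  field_simp
  linear_combination (-∑ j, ∑ k, (lev (φ e) y)⁻¹ k j * dz j (db k f) y) * h5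

end KE

end Pool.Agent.helper63.NU
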