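import Pool.Agent.helper63.NU.Defs4
import Pool.Agent.helper28.NU.KE

set_option autoImplicit false
set_option linter.all false

/-! Module M2c: the Laplacian of a Kähler–Einstein manifold is real. -/

open MeasureTheory Filter Topology Set
open scoped ContDiff Manifold Matrix ENNReal ComplexOrder

noncomputable section

namespace Pool.Agent.helper63.NU

variable {n : ℕ} {M : Type*} [TopologicalSpace M] [ChartedSpace (E n) M]
  [IsManifold 𝓘(ℂ, E n) ω M] {φ : Fam n M ℝ}

theorem box_conj (hφ : IsPos 1 φ) {c : ℝ} (hdl : ∀ x, dl φ x = c) {v : M → ℂ} (hv : Sm n v)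
    {e : Ch n M} (he : e ∈ atlas (E n) M) {y : E n} (hy : y ∈ e.target) :
    bx (φ e) (fun z => (starRingEnd ℂ) (v (e.symm z))) y
      = (starRingEnd ℂ) (bx (φ e) (fun z => v (e.symm z)) y) := by
  have hUy : e.target ∈ 𝓝 y := e.open_target.mem_nhds hy
  have hv1 : ContDiffOn ℝ ∞ (fun z => v (e.symm z)) e.target := hv e he
  have hv2 : ContDiffOn ℝ ∞ (fun z => (starRingEnd ℂ) (v (e.symm z))) e.target :=
    Complex.conjCLE.contDiff.comp_contDiffOn hv1
  rw [KE.bx_eq hφ hdl he hv1 hy, KE.bx_eq hφ hdl he hv2 hy, map_neg, map_sum]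
  congr 1
  have hH : ((lev (φ e) y)⁻¹).IsHermitian := (hφ.pos e he y hy).isHermitian.inv
  have h1 : ∀ j k, (lev (φ e) y)⁻¹ k j = (starRingEnd ℂ) ((lev (φ e) y)⁻¹ j k) := by
    intro j k
    exact (hH.apply k j).symm
  have h2 : ∀ j k, dz j (db k fun z => (starRingEnd ℂ) (v (e.symm z))) y =
      (starRingEnd ℂ) (dz k (db j fun z => v (e.symm z)) y) := by
    intro j k
    have h3 : (db k fun z => (starRingEnd ℂ) (v (e.symm z))) =
        fun z => (starRingEnd ℂ) (dz k (fun z => v (e.symm z)) z) := by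
      funext z
      exact db_conj _ _ _
    rw [h3, dz_conj, dz_db_comm ((hv1.contDiffAt hUy).of_le (by norm_cast))]
  simp only [map_sum]
  rw [Finset.sum_comm]
  refine Finset.sum_congr rfl fun k _ => ?_
  refine Finset.sum_congr rfl fun j _ => ?_
  rw [h1 j k, h2 j k, map_mul]

end Pool.Agent.helper63.NU
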