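import Pool.Agent.helper31.NU.PDefs2
import Pool.Agent.helper28.NU.KE
import Pool.Agent.helper63.NU.Stub.A7
import Pool.Agent.helper63.NU.Stub.B2
import Pool.Agent.helper63.NU.Stub.B3
import Pool.Agent.helper63.NU.Stub.B4b
import Pool.Agent.helper63.NU.Stub.B5

set_option autoImplicit false
set_option linter.all false

/-! Module P16: Green's formula on a compact Kähler–Einstein manifold. -/

open MeasureTheory Filter Topology Set
open scoped ContDiff Manifold Matrix ENNReal ComplexOrder

noncomputable section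

namespace Pool.Agent.helper63.NU

variable {n : ℕ} {M : Type*} [TopologicalSpace M] [ChartedSpace (E n) M]
  [IsManifold 𝓘(ℂ, E n) ω M]

namespace KE

theorem continuousOn_conj {X : Type*} [TopologicalSpace X] {f : X → ℂ} {U : Set X}
    (hf : ContinuousOn f U) : ContinuousOn (fun x => (starRingEnd ℂ) (f x)) U :=
  Complex.continuous_conj.comp_continuousOn hf

theorem continuousOn_exp_neg {ψ : E n → ℝ} {U : Set (E n)} (hψ : ContDiffOn ℝ ∞ ψ U) :
    ContinuousOn (fun y => (Real.exp (-ψ y) : ℂ)) U :=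
  Complex.continuous_ofReal.comp_continuousOn
    (Real.continuous_exp.comp_continuousOn hψ.continuousOn.neg)

theorem continuousOn_en {φ : Fam n M ℝ} (hφ : IsPos 1 φ) {s t : Fam n M ℂ} (hs : IsSec 0 s)
    (ht : IsSec 0 t) : ∀ e ∈ atlas (E n) M, ContinuousOn (en φ s t e) e.target := by
  intro e he
  unfold en cn dbv
  refine ContinuousOn.mul ?_ (continuousOn_exp_neg (hφ.smooth e he))
  refine continuousOn_finsetSum _ fun k _ => continuousOn_finsetSum _ fun j _ => ?_
  refine ContinuousOn.mul (ContinuousOn.mul ?_ ?_) (continuousOn_conj ?_)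
  · exact (contDiffOn_db e.open_target (hs.smooth e he) k).continuousOn
  · exact (contDiffOn_lev_inv e.open_target (hφ.smooth e he) (hφ.pos e he) k j).continuousOn
  · exact (contDiffOn_db e.open_target (ht.smooth e he) j).continuousOn

theorem continuousOn_pr {φ : Fam n M ℝ} (hφ : IsPos 1 φ) {s t : Fam n M ℂ} (hs : IsSec 0 s)
    (ht : IsSec 0 t) : ∀ e ∈ atlas (E n) M, ContinuousOn (pr φ s t e) e.target := by
  intro e he
  unfold pr
  exact ((hs.smooth e he).continuousOn.mul (continuousOn_conj (ht.smooth e he).continuousOn)).mul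
    (continuousOn_exp_neg (hφ.smooth e he))

theorem exp_cancel (a : ℝ) : (Real.exp (-a) : ℂ) * (Real.exp a : ℂ) = 1 := by
  rw [← Complex.ofReal_mul, ← Real.exp_add, neg_add_cancel, Real.exp_zero, Complex.ofReal_one]

end KE

variable [CompactSpace M] [T2Space M]
variable [MeasurableSpace M] [BorelSpace M] {μ : Measure M} {φ : Fam n M ℝ}

/-- `ip_box` (helper2/NU/B5) with `k = 0`, `ψ = φ`, `s = v`, `t = u`, and `box φ v = - lap φ v`
because `e^{-φ} = det (∂∂̄φ)/c` and `∑_j ∂_j (det Θ Θ⁻¹_{kj}) = 0` (`cof_div`, helper5/NU/H1). -/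
theorem green_ke (hφ : IsPos 1 φ) (hμ : IsDens μ φ) {c : ℝ} (hc : ∀ x, dl φ x = c) {u v : M → ℝ}
    (hu : Sm n fun x => ((u x : ℝ) : ℂ)) (hv : Sm n fun x => ((v x : ℝ) : ℂ)) :
    ∫ x, u x * lap φ v x ∂μ = -∫ x, gr2 φ u v x ∂μ := by
  haveI : IsFiniteMeasure μ := isFiniteMeasure_of_isDens hφ.toIsWeight hμ
  have hφ' : IsPos (0 + 1) φ := hφ
  have hsu : IsSec 0 (fun e y => ((u (e.symm y) : ℝ) : ℂ) : Fam n M ℂ) := isSec_zero_iff.1 hu
  have hsv : IsSec 0 (fun e y => ((v (e.symm y) : ℝ) : ℂ) : Fam n M ℂ) := isSec_zero_iff.1 hv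
  have hbv := box_isSec hφ' hsv
  have h1 := ip_box hφ.toIsWeight hμ hφ' hsv hsu
  unfold ip dp at h1
  have hi1 : Integrable (fn φ (pr φ (box φ (fun e y => ((v (e.symm y) : ℝ) : ℂ)))
      (fun e y => ((u (e.symm y) : ℝ) : ℂ)))) μ :=
    (continuous_fn hφ.toIsWeight (pr_isDen hφ'.toIsWeight hbv hsu)
      (KE.continuousOn_pr hφ hbv hsu)).integrable_of_hasCompactSupport
      (HasCompactSupport.of_compactSpace _)
  have hi2 : Integrable (fn φ (en φ (fun e y => ((v (e.symm y) : ℝ) : ℂ))
      (fun e y => ((u (e.symm y) : ℝ) : ℂ)))) μ :=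
    (continuous_fn hφ.toIsWeight (en_isDen hφ' hsv hsu)
      (KE.continuousOn_en hφ hsv hsu)).integrable_of_hasCompactSupport
      (HasCompactSupport.of_compactSpace _)
  have h2 := congrArg Complex.re h1
  have h3 : ∫ x, (fn φ (pr φ (box φ (fun e y => ((v (e.symm y) : ℝ) : ℂ)))
      (fun e y => ((u (e.symm y) : ℝ) : ℂ))) x).re ∂μ =
      ∫ x, (fn φ (en φ (fun e y => ((v (e.symm y) : ℝ) : ℂ))
      (fun e y => ((u (e.symm y) : ℝ) : ℂ))) x).re ∂μ := by
    have h4 := integral_re hi1
    have h5 := integral_re hi2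
    simp only [RCLike.re_eq_complex_re] at h4 h5
    rw [h4, h5]
    exact h2
  have h6 : ∀ x, (fn φ (pr φ (box φ (fun e y => ((v (e.symm y) : ℝ) : ℂ)))
      (fun e y => ((u (e.symm y) : ℝ) : ℂ))) x).re = -(u x * lap φ v x) := by
    intro x
    unfold fn pr box lap
    beta_reduce
    set e := chartAt (E n) x with he
    have hemem : e ∈ atlas (E n) M := chart_mem_atlas (E n) x
    have hey : e x ∈ e.target := mem_chart_target (E n) x
    have hxe : e.symm (e x) = x := e.left_inv (mem_chart_source (E n) x)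
    rw [KE.bx_eq hφ hc hemem (hsv.smooth e hemem) hey, mul_assoc, KE.exp_cancel, mul_one, hxe,
      Complex.conj_ofReal]
    have h7 : ∀ j k, lev (fun z => v (e.symm z)) (e x) j k =
        dz j (db k fun y => ((v (e.symm y) : ℝ) : ℂ)) (e x) := fun j k => rfl
    simp only [h7]
    rw [Complex.mul_re, Complex.neg_re, Complex.ofReal_re, Complex.ofReal_im]
    ring
  have h8 : ∀ x, (fn φ (en φ (fun e y => ((v (e.symm y) : ℝ) : ℂ))
      (fun e y => ((u (e.symm y) : ℝ) : ℂ))) x).re = gr2 φ u v x := by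
    intro x
    unfold fn en gr2
    beta_reduce
    set e := chartAt (E n) x with he
    have hemem : e ∈ atlas (E n) M := chart_mem_atlas (E n) x
    have hey : e x ∈ e.target := mem_chart_target (E n) x
    rw [mul_assoc, KE.exp_cancel, mul_one, ← cn_conj (hφ.pos e hemem (e x) hey), Complex.conj_re]
  simp only [h6, h8] at h3
  rw [integral_neg] at h3
  linarith

end Pool.Agent.helper63.NU
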